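import Pool.Agent.Lib.MP_40c71d_co_h20.Main

/-! # MP_40c71d_co: graphs whose chromatic number is at most `r / 100`

Question 1 has a positive answer for all graphs `G` with maximum degree at most `r` and
`100 χ(G) ≤ r`. -/

set_option autoImplicit false

namespace Pool.Agent.Results.MP_40c71d_co.SmallChromatic

universe u

/-- A colouring with `r` colours (a proper colouring, some classes may be empty) is equitable if any
two of its `r` colour classes differ in size by at most one. -/
def IsEquitable {W : Type u} {F : SimpleGraph W} {r : ℕ} (C : F.Coloring (Fin r)) : Prop :=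
  ∀ i j : Fin r, (C.colorClass i).ncard ≤ (C.colorClass j).ncard + 1

/-- `F` is `r`-equitable: `r` divides the number of vertices, `F` is `r`-colourable and every
colouring of `F` with `r` colours is equitable. -/
def IsREquitable {W : Type u} (F : SimpleGraph W) (r : ℕ) : Prop :=
  r ∣ Nat.card W ∧ F.Colorable r ∧ ∀ C : F.Coloring (Fin r), IsEquitable C

/-- The graph `G - H`, where `H` is the copy `φ` of some graph in `G`: the subgraph of `G` induced
on the vertices not in `H`. -/
def minus {V : Type u} {A : Type} {K : SimpleGraph A} (G : SimpleGraph V) (φ : K.Copy G) :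
    SimpleGraph ↥(Set.range φ)ᶜ :=
  G.induce (Set.range φ)ᶜ

private theorem exact_aux {r m : ℕ} {s : Fin r → ℕ} (hs : ∀ i j, s i ≤ s j + 1)
    (hsum : ∑ i, s i = r * m) (i : Fin r) : s i = m := by
  have hcon : ∀ x : ℕ, ∑ _j : Fin r, x = r * x := fun x => by simp
  rcases lt_trichotomy (s i) m with h | h | h
  · have h1 : ∑ j, s j < ∑ _j : Fin r, m :=
      Finset.sum_lt_sum (fun j _ => by have := hs j i; omega) ⟨i, Finset.mem_univ _, h⟩
    rw [hcon, hsum] at h1
    exact absurd h1 (lt_irrefl _)
  · exact h
  · have h1 : ∑ _j : Fin r, m < ∑ j, s j :=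
      Finset.sum_lt_sum (fun j _ => by have := hs i j; omega) ⟨i, Finset.mem_univ _, h⟩
    rw [hcon, hsum] at h1
    exact absurd h1 (lt_irrefl _)

private theorem sum_classes {W : Type u} [Finite W] {F : SimpleGraph W} {r : ℕ}
    (C : F.Coloring (Fin r)) : ∑ i, (C.colorClass i).ncard = Nat.card W := by
  classical
  have := Fintype.ofFinite W
  rw [Nat.card_eq_fintype_card, ← Finset.card_univ]
  rw [Finset.card_eq_sum_card_fiberwise (f := C) (t := Finset.univ)
    (fun _ _ => Finset.mem_coe.2 (Finset.mem_univ _))]
  apply Finset.sum_congr rfl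
  intro i _
  rw [← Set.ncard_coe_finset]
  congr 1
  ext v
  simp [SimpleGraph.Coloring.colorClass]

private theorem exact_class {W : Type u} [Finite W] {F : SimpleGraph W} {r m : ℕ}
    {C : F.Coloring (Fin r)} (hC : IsEquitable C) (hm : Nat.card W = r * m) (i : Fin r) :
    (C.colorClass i).ncard = m :=
  exact_aux (s := fun i => (C.colorClass i).ncard) hC ((sum_classes C).trans hm) i

/-- the backward direction -/
private theorem back {V : Type u} [Finite V] {G : SimpleGraph V} {r : ℕ} (hodd : Odd r)
    (φ : (completeBipartiteGraph (Fin r) (Fin r)).Copy G) (hF : IsREquitable (minus G φ) r) :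
    ¬ ∃ C : G.Coloring (Fin r), IsEquitable C := by
  classical
  rintro ⟨C, hC⟩
  obtain ⟨⟨m, hm⟩, -, hall⟩ := hF
  have hinj : Function.Injective φ := φ.injective
  have hrange : (Set.range φ).ncard = 2 * r := by
    rw [← Set.image_univ, Set.ncard_image_of_injective _ hinj, Set.ncard_univ]
    simp [two_mul]
  have hcard : Nat.card V = r * (m + 2) := by
    have h1 : (Set.range φ)ᶜ.ncard = r * m := by
      rw [← hm]; exact (Nat.card_coe_set_eq _).symm
    have h2 := Set.ncard_add_ncard_compl (Set.range φ)
    rw [hrange, h1] at h2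
    rw [← h2]; ring
  -- the restriction of the colouring
  let C' : (minus G φ).Coloring (Fin r) := SimpleGraph.Coloring.mk (fun w => C w.1)
    (fun {u v} h => C.valid h)
  have h1 : ∀ i, (C.colorClass i).ncard = m + 2 := exact_class hC hcard
  have h2 : ∀ i, (C'.colorClass i).ncard = m := exact_class (hall C') hm
  have h3 : ∀ i, ({x | C (φ x) = i} : Set (Fin r ⊕ Fin r)).ncard = 2 := by
    intro i
    have e1 : C.colorClass i = (Subtype.val '' (C'.colorClass i)) ∪ (φ '' {x | C (φ x) = i}) := by
      ext v
      constructor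
      · intro hv
        by_cases h : v ∈ Set.range φ
        · obtain ⟨x, rfl⟩ := h
          exact Or.inr ⟨x, hv, rfl⟩
        · exact Or.inl ⟨⟨v, h⟩, hv, rfl⟩
      · rintro (⟨w, hw, rfl⟩ | ⟨x, hx, rfl⟩)
        · exact hw
        · exact hx
    have e2 : Disjoint (Subtype.val '' (C'.colorClass i)) (φ '' {x | C (φ x) = i}) := by
      rw [Set.disjoint_left]
      rintro v ⟨w, _, rfl⟩ ⟨x, _, hx⟩
      exact w.2 ⟨x, hx⟩
    have e3 := Set.ncard_union_eq e2 (Set.toFinite _) (Set.toFinite _)
    rw [← e1, h1 i, Set.ncard_image_of_injective _ Subtype.val_injective, h2 i,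
      Set.ncard_image_of_injective _ hinj] at e3
    omega
  -- one side
  have h4 : ∀ i, Even ({a | C (φ (Sum.inl a)) = i} : Set (Fin r)).ncard := by
    intro i
    by_cases hr : ∃ b : Fin r, C (φ (Sum.inr b)) = i
    · obtain ⟨b, hb⟩ := hr
      have : ({a | C (φ (Sum.inl a)) = i} : Set (Fin r)) = ∅ := by
        ext a
        simp only [Set.mem_setOf_eq, Set.mem_empty_iff_false, iff_false]
        intro ha
        have hadj : (completeBipartiteGraph (Fin r) (Fin r)).Adj (Sum.inl a) (Sum.inr b) := by
          simp [completeBipartiteGraph]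
        exact C.valid (φ.toHom.map_adj hadj) (ha.trans hb.symm)
      rw [this]; simp
    · have : ({x | C (φ x) = i} : Set (Fin r ⊕ Fin r)) = Sum.inl '' {a | C (φ (Sum.inl a)) = i} := by
        ext x
        rcases x with a | b
        · simp
        · simp only [Set.mem_setOf_eq, Set.mem_image, reduceCtorEq, and_false, exists_false,
            iff_false]
          exact fun h => hr ⟨b, h⟩
      have h5 := h3 i
      rw [this, Set.ncard_image_of_injective _ Sum.inl_injective] at h5
      rw [h5]; exact even_two
  have h5 : ∑ i, ({a | C (φ (Sum.inl a)) = i} : Set (Fin r)).ncard = r := by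
    have e : ∀ i, ({a | C (φ (Sum.inl a)) = i} : Set (Fin r)).ncard =
        (Finset.univ.filter (fun a => C (φ (Sum.inl a)) = i)).card := by
      intro i
      rw [← Set.ncard_coe_finset]
      congr 1
      ext a; simp
    simp only [e]
    rw [← Finset.card_eq_sum_card_fiberwise (f := fun a => C (φ (Sum.inl a))) (s := Finset.univ)
      (fun _ _ => Finset.mem_coe.2 (Finset.mem_univ _))]
    simp
  have h6 : Even r := by
    rw [← h5]
    exact Finset.even_sum _ (fun i _ => h4 i)
  rw [← Nat.not_odd_iff_even] at h6
  exact h6 hodd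

/-- `G` is the complete bipartite graph -/
private theorem forward {V : Type u} [Finite V] {G : SimpleGraph V} {q r : ℕ}
    (hq : G.Colorable q) (hqr : 100 * q ≤ r) (hdeg : ∀ v, (G.neighborSet v).ncard ≤ r)
    (h : ¬ ∃ C : G.Coloring (Fin r), IsEquitable C) :
    Odd r ∧ Nonempty (G ≃g completeBipartiteGraph (Fin r) (Fin r)) := by
  classical
  have := Fintype.ofFinite V
  obtain ⟨c⟩ := hq
  have hr : ∀ v, G.degree v ≤ r := fun v => by
    rw [Pool.Agent.CLW.degree_eq_ncard]; exact hdeg v
  rcases Pool.Agent.CLW.main_dich (c := c) (fun u v hadj => c.valid hadj) hr hqr with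
    ⟨C, hC⟩ | ⟨A, B, hAB, hd, hA, hB, hodd, hadj⟩
  · exfalso
    apply h
    refine ⟨C, fun i j => ?_⟩
    have e : ∀ i, (C.colorClass i).ncard = (Finset.univ.filter (fun v => C v = i)).card := by
      intro i
      rw [← Set.ncard_coe_finset]
      congr 1
      ext v
      simp [SimpleGraph.Coloring.colorClass]
    rw [e, e]
    exact hC i j
  · refine ⟨hodd, ?_⟩
    have hmem : ∀ v, v ∉ A → v ∈ B := by
      intro v hv
      have : v ∈ A ∪ B := by rw [hAB]; exact Finset.mem_univ v
      exact (Finset.mem_union.1 this).resolve_left hv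
    have hNA : ∀ v ∈ A, G.neighborFinset v = B := by
      intro v hv
      symm
      apply Finset.eq_of_subset_of_card_le
      · intro w hw
        rw [SimpleGraph.mem_neighborFinset]
        exact hadj v hv w hw
      · rw [SimpleGraph.card_neighborFinset_eq_degree, hB]; exact hr v
    have hNB : ∀ v ∈ B, G.neighborFinset v = A := by
      intro v hv
      symm
      apply Finset.eq_of_subset_of_card_le
      · intro w hw
        rw [SimpleGraph.mem_neighborFinset]
        exact (hadj w hw v hv).symm
      · rw [SimpleGraph.card_neighborFinset_eq_degree, hA]; exact hr v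
    have hAdj : ∀ u v, G.Adj u v ↔ (u ∈ A ∧ v ∉ A ∨ u ∉ A ∧ v ∈ A) := by
      intro u v
      by_cases hu : u ∈ A
      · have h1 : G.Adj u v ↔ v ∈ B := by
          rw [← SimpleGraph.mem_neighborFinset, hNA u hu]
        rw [h1]
        constructor
        · intro hv
          exact Or.inl ⟨hu, fun hv' => Finset.disjoint_left.1 hd hv' hv⟩
        · rintro (⟨_, hv⟩ | ⟨hu', _⟩)
          · exact hmem v hv
          · exact absurd hu hu'
      · have h1 : G.Adj u v ↔ v ∈ A := by
          rw [← SimpleGraph.mem_neighborFinset, hNB u (hmem u hu)]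
        rw [h1]
        constructor
        · intro hv
          exact Or.inr ⟨hu, hv⟩
        · rintro (⟨hu', _⟩ | ⟨_, hv⟩)
          · exact absurd hu' hu
          · exact hv
    let eA : {v // v ∈ A} ≃ Fin r := Fintype.equivFinOfCardEq (by
      rw [Fintype.card_of_subtype A (fun _ => Iff.rfl)]; exact hA)
    have hBc : Fintype.card {v // v ∉ A} = r := by
      rw [Fintype.card_of_subtype B, hB]
      intro v
      exact ⟨fun hv hv' => Finset.disjoint_left.1 hd hv' hv, hmem v⟩
    let eB : {v // v ∉ A} ≃ Fin r := Fintype.equivFinOfCardEq hBc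
    let e : V ≃ Fin r ⊕ Fin r := (Equiv.sumCompl (fun v => v ∈ A)).symm.trans (Equiv.sumCongr eA eB)
    have hel : ∀ v, (e v).isLeft = true ↔ v ∈ A := by
      intro v
      by_cases hv : v ∈ A
      · have : e v = Sum.inl (eA ⟨v, hv⟩) := by
          simp only [e, Equiv.trans_apply]
          rw [Equiv.sumCompl_symm_apply_of_pos hv]
          rfl
        simp [this, hv]
      · have : e v = Sum.inr (eB ⟨v, hv⟩) := by
          simp only [e, Equiv.trans_apply]
          rw [Equiv.sumCompl_symm_apply_of_neg hv]
          rfl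
        simp [this, hv]
    have her : ∀ v, (e v).isRight = true ↔ v ∉ A := by
      intro v
      rw [← hel v]
      cases e v <;> simp
    refine ⟨⟨e, ?_⟩⟩
    intro u v
    show ((e u).isLeft ∧ (e v).isRight ∨ (e u).isRight ∧ (e v).isLeft) ↔ G.Adj u v
    rw [hAdj, hel, hel, her, her]

/-- **Main theorem.** Let `G` be a finite graph with all degrees at most `r` that has a proper
colouring with `q` colours, where `100 q ≤ r`. Then the following are equivalent:
`G` has no equitable colouring with `r` colours; `r` is odd and `G` has a subgraph `H` isomorphic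
to `K_{r,r}` such that `G - H` is `r`-equitable; `r` is odd and `G` is isomorphic to `K_{r,r}`. -/
theorem result {V : Type u} [Finite V] (G : SimpleGraph V) (q r : ℕ) (hq : G.Colorable q)
    (hqr : 100 * q ≤ r) (hdeg : ∀ v, (G.neighborSet v).ncard ≤ r) :
    List.TFAE [¬ ∃ C : G.Coloring (Fin r), IsEquitable C,
      Odd r ∧ ∃ φ : (completeBipartiteGraph (Fin r) (Fin r)).Copy G, IsREquitable (minus G φ) r,
      Odd r ∧ Nonempty (G ≃g completeBipartiteGraph (Fin r) (Fin r))] := by
  tfae_have 1 → 3 := forward hq hqr hdeg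
  tfae_have 2 → 1 := fun ⟨hodd, φ, hF⟩ => back hodd φ hF
  tfae_have 3 → 2 := by
    rintro ⟨hodd, ⟨e⟩⟩
    refine ⟨hodd, e.symm.toCopy, ?_⟩
    have hempty : IsEmpty ↥(Set.range (e.symm.toCopy : (completeBipartiteGraph (Fin r) (Fin r)).Copy G))ᶜ := by
      constructor
      rintro ⟨v, hv⟩
      apply hv
      exact ⟨e v, e.symm_apply_apply v⟩
    refine ⟨?_, ?_, ?_⟩
    · rw [Nat.card_of_isEmpty]; exact dvd_zero r
    · exact ⟨SimpleGraph.Coloring.mk (fun w => (hempty.false w).elim) (fun {u} => (hempty.false u).elim)⟩
    · intro C i j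
      have : C.colorClass i = ∅ := by
        ext w; exact (hempty.false w).elim
      rw [this]; simp
  tfae_finish

end Pool.Agent.Results.MP_40c71d_co.SmallChromatic
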